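import Pool.Agent.N972.GC.Sg21
import Pool.Agent.N218.T21.Tam

/-!
# The criteria of the twists of `X_0(21)` in terms of the discriminant (helper972)
-/

set_option autoImplicit false

namespace Pool.Agent.N972.S21

open Pool.Agent.N969.RQ (R21 R21r)
open Pool.Agent.N877.P21G (Ai A0 Kn K0 K3 K7 K21)
open Pool.Agent.N218.T21 (Kd)
open Pool.Agent.N809.PQ (Sg21)
open Pool.Agent.N875.D15 (mQ mQ_odd mQ_even)
open Pool.Agent.N972.GC (CY CM C21 QQ not4 sg21_A sg21_R' sg21_Kn sg21_K)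

lemma mQ_Kd {m : ℤ} (hs : Squarefree m) : mQ (Kd m) = m.natAbs := by
  have h4 := not4 hs
  unfold Kd
  by_cases h : m % 4 = 1
  · rw [if_pos h, mQ_odd (by omega)]
  · rw [if_neg h, mQ_even (by omega)]
    omega

lemma pos_Kd {m : ℤ} (hs : Squarefree m) (hm : 0 < m) : (mQ (Kd m) : ℤ) = m := by
  rw [mQ_Kd hs]
  omega

lemma neg_Kd {m : ℤ} (hs : Squarefree m) (hm : m < 0) : -(mQ (Kd m) : ℤ) = m := by
  rw [mQ_Kd hs]
  omega

theorem cY (m : ℤ) (hs : Squarefree m) (h0 : 0 < m) (_ : m ≠ 1) (h : Ai (Kd m) ∨ A0 (Kd m)) :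
    Sg21 m ↔ CY (-7) (Kd m) := by
  have h1 := sg21_A h
  rwa [pos_Kd hs h0] at h1

theorem c21 (m : ℤ) (hs : Squarefree m) (h0 : 0 < m) (_ : m ≠ 1) (h : R21 (Kd m) ∨ R21r (Kd m)) :
    Sg21 m ↔ C21 (Kd m) := by
  have h1 := sg21_R' h
  rwa [pos_Kd hs h0] at h1

theorem cM (m : ℤ) (hs : Squarefree m) (h0 : m < 0) (h : Kn (Kd m)) :
    Sg21 m ↔ CM (-7) 3 (Kd m) := by
  have h1 := sg21_Kn h
  rwa [neg_Kd hs h0] at h1

theorem cQ (m : ℤ) (hs : Squarefree m) (h0 : m < 0)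
    (h : K0 (Kd m) ∨ K3 (Kd m) ∨ K7 (Kd m) ∨ K21 (Kd m)) : Sg21 m ↔ QQ (Kd m) := by
  have h1 := sg21_K h
  rwa [neg_Kd hs h0] at h1

end Pool.Agent.N972.S21
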