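import Pool.Agent.N973.P21G.Rx

/-!
# Level 21: the exact central values for negative discriminants (helper972)
-/

set_option autoImplicit false
set_option linter.style.haveILetI false

open Complex Filter Topology Set UpperHalfPlane MatrixGroups CongruenceSubgroup ZMod

namespace Pool.Agent.N972.S21

open Pool.Agent.N974.Gen
open Pool.Agent.N402.MF21 (f21 eigen21 param21 tends0 tends3 tends7 hW21 hW3)
open Pool.Agent.N969.P15 (un Ev chE)
open Pool.Agent.W97.MT (ap)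
open Pool.Agent.Y700 (IsL tamProd Omega)
open Pool.Agent.N973.P21G (RelX s13_one)

/-- the exact conclusion -/
def ConclX (W : WeierstrassCurve ℤ) (Q : Prop) : Prop := 0 < Omega W ∧
    ∃ (f : ℂ → ℂ) (y : ℤ), IsL W f ∧ (Odd y ↔ Q) ∧
      f 1 = (((y : ℝ) ^ 2 * (Omega W * tamProd W / 16) : ℝ) : ℂ)

/-- **negative discriminants, exact value** -/
theorem coreNX {n : ℕ} [NeZero n] (hn1 : 1 < n) (W : WeierstrassCurve ℤ)
    (h4 : W.c₄ = 193 * (n : ℤ) ^ 2) (h6 : W.c₆ = -(575 * (n : ℤ) ^ 3))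
    (χ : DirichletCharacter ℂ n) (hχ : χ.IsPrimitive) (hinv : χ⁻¹ = χ) (hodd : χ (-1) = -1)
    (hG : gaussSum χ (stdAddChar (N := n)) = Complex.I * ((Real.sqrt n : ℝ) : ℂ))
    (w : ℕ → ℤ) (hw : ∀ u : ℕ, χ (u : ZMod n) = (w u : ℂ))
    (hv : ∀ p : ℕ, p.Prime → w p = 0 ∨ w p = 1 ∨ w p = -1)
    (ha : ∀ p : ℕ, p.Prime → ap W p = ap E21 p * w p)
    (hΔ : ∀ p : ℕ, p.Prime → ((p : ℤ) ∣ W.Δ ↔ p ∣ 21 ∨ w p = 0)) {T : ℕ} (hT : tamProd W = T)
    {Q : Prop} (hR : RelX n w T Q) : ConclX W Q := by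
  have hn0 : (0 : ℝ) < n := by exact_mod_cast (by omega : 0 < n)
  have hsn : (0 : ℝ) < √(n : ℝ) := Real.sqrt_pos.2 hn0
  obtain ⟨L, Op, Om, hOp, hOm, g2, g3, hL⟩ := Pool.Agent.N975.LatGen.lat21
  obtain ⟨sm, hsm, hsym⟩ := Pool.Agent.N637.P21.exists_symb21L L Op Om hOp hOm g2 g3 hL eigen21
    (param21 L g2 g3) tends0 tends7 tends3 hW21 hW3
  have h13 := s13_one hOp hOm g2 g3 hL hsm hsym
  have hΩ : Omega W = 2 * Om / √n := by
    rw [Pool.Agent.N637.P21.omega_eq, Pool.Agent.N637.P21.per_neg L Op Om hOp hOm g2 g3 hL n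
      (by omega) W h4 h6]
    ring
  obtain ⟨f, hf, hf1⟩ := Pool.Agent.N971.EX.value_odd eigen21 W hn1 χ hχ hinv hodd hG w hw hv
    ha hΔ
  obtain ⟨y, hyQ, hrel⟩ := hR
  have hr := hrel sm _ hsym h13
  refine ⟨by rw [hΩ]; positivity, f, y, hf, hyQ, ?_⟩
  have hsum : ∑ a ∈ un n, (w a : ℝ) * (II f21 ((a : ℚ) / n)).im =
      Om / 2 * ((∑ u ∈ un n, w u * sm ((u : ℚ) / n) : ℤ) : ℝ) := by
    push_cast
    rw [Finset.mul_sum]
    refine Finset.sum_congr rfl fun a _ => ?_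
    rw [hsm]
    ring
  have hr' : (4 : ℝ) * ((∑ u ∈ un n, w u * sm ((u : ℚ) / n) : ℤ) : ℝ) =
      (T : ℝ) * (y : ℝ) ^ 2 := by
    exact_mod_cast hr
  rw [hf1, hsum, hΩ, hT]
  congr 1
  have hS : ((∑ u ∈ un n, w u * sm ((u : ℚ) / n) : ℤ) : ℝ) = (T : ℝ) * (y : ℝ) ^ 2 / 4 := by
    linarith
  rw [hS]
  field_simp
  ring

/-- **odd negative discriminants, exact value** -/
theorem negOX {n : ℕ} (hs : Squarefree n) (h4 : n % 4 = 3) (W : WeierstrassCurve ℤ)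
    (hc4 : W.c₄ = 193 * (n : ℤ) ^ 2) (hc6 : W.c₆ = -(575 * (n : ℤ) ^ 3))
    (ha : ∀ p : ℕ, p.Prime → ap W p = ap E21 p * jacobiSym p n)
    (hΔ : ∀ p : ℕ, p.Prime → ((p : ℤ) ∣ W.Δ ↔ p ∣ 21 ∨ p ∣ n)) {T : ℕ} (hT : tamProd W = T)
    {Q : Prop} (hR : RelX n (fun u => jacobiSym u n) T Q) : ConclX W Q := by
  have hodd : Odd n := Nat.odd_iff.2 (by omega)
  haveI : NeZero n := ⟨by omega⟩
  set d : Pool.Agent.H491R3.J.OS := ⟨n, hodd, hs, by omega⟩ with hd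
  have hchi : ∀ m : ℕ, H491R3.J.chi d (m : ZMod n) = ((jacobiSym (m : ℤ) n : ℤ) : ℂ) :=
    H491R3.J.chi_natCast d
  have jz : ∀ p : ℕ, p.Prime → (jacobiSym (p : ℤ) n = 0 ↔ p ∣ n) := by
    intro p hp
    rw [jacobiSym.eq_zero_iff_not_coprime, Int.gcd_natCast_natCast]
    have h9 : Nat.gcd p n = 1 ↔ ¬ p ∣ n := Nat.Prime.coprime_iff_not_dvd hp
    rw [ne_eq, h9, not_not]
  refine coreNX (by omega) W hc4 hc6 (H491R3.J.chi d) (H491R3.J.chi_primitive d)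
    (H491R3.J.chi_inv d) ?_ ?_ (fun u => jacobiSym u n) hchi ?_ ha ?_ hT hR
  · have h9 := H491R3.J.chi_neg_one d
    have h10 : ¬ (d.1 % 4 = 1) := by
      change ¬ (n % 4 = 1)
      omega
    rw [h9, if_neg h10]
  · rw [Pool.Agent.N971.EX.gauss_odd (H491R3.J.chi d) hchi, Pool.Agent.N971.EX.gJ_three hs h4]
  · intro p hp
    by_cases hpn : p ∣ n
    · exact Or.inl ((jz p hp).2 hpn)
    · right
      refine jacobiSym.eq_one_or_neg_one ?_
      rw [Int.gcd_natCast_natCast]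
      exact (Nat.Prime.coprime_iff_not_dvd hp).2 hpn
  · intro p hp
    rw [hΔ p hp, jz p hp]

open Pool.Agent.N975.ChE in
/-- **even negative discriminants, exact value** -/
theorem negEX {n : ℕ} (hE : Ev n) (W : WeierstrassCurve ℤ)
    (hc4 : W.c₄ = 193 * (n : ℤ) ^ 2) (hc6 : W.c₆ = -(575 * (n : ℤ) ^ 3))
    (ha : ∀ p : ℕ, p.Prime → ap W p = ap E21 p * chE n p)
    (hΔ : ∀ p : ℕ, p.Prime → ((p : ℤ) ∣ W.Δ ↔ p ∣ 21 ∨ p ∣ n)) {T : ℕ} (hT : tamProd W = T)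
    {Q : Prop} (hR : RelX n (fun u => chE n u) T Q) : ConclX W Q := by
  have hm := ev_mod hE
  have hn0 := ev_pos hE
  haveI : NeZero n := ⟨by omega⟩
  have jz : ∀ p : ℕ, p.Prime → (chE n p = 0 ↔ p ∣ n) := by
    intro p hp
    constructor
    · intro h0
      by_contra hcon
      rcases chE_pm hm ((Nat.Prime.coprime_iff_not_dvd hp).2 hcon) with h | h <;>
        rw [h] at h0 <;> norm_num at h0
    · intro h0
      exact chE_zero hm fun h => hp.one_lt.ne' (Nat.eq_one_of_dvd_coprimes h dvd_rfl h0)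
  refine coreNX (by omega) W hc4 hc6 (chi n hm) (chi_primitive hE)
    (chi_inv n hm) ?_ (Pool.Agent.N971.EX.gauss_chE hE (chi n hm) (chi_nat n hm))
    (fun u => chE n u) (chi_nat n hm) ?_ ha ?_ hT hR
  · have h1 : ((n - 1 : ℕ) : ZMod n) = -1 := by
      rw [Nat.cast_sub (by omega), ZMod.natCast_self, Nat.cast_one, zero_sub]
    have h2 : chE n ((n - 1 : ℕ) : ℤ) = -1 := by
      rw [chE_mod hm (u := ((n - 1 : ℕ) : ℤ)) (v := -1) ⟨1, by omega⟩]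
      exact Pool.Agent.N975.CHB.chE_neg_one hE
    rw [← h1, chi_nat n hm, h2]
    norm_num
  · intro p hp
    by_cases hpn : p ∣ n
    · exact Or.inl ((jz p hp).2 hpn)
    · exact Or.inr (chE_pm hm ((Nat.Prime.coprime_iff_not_dvd hp).2 hpn))
  · intro p hp
    rw [hΔ p hp, jz p hp]

end Pool.Agent.N972.S21
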